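import Pool.Agent.Helper33.DP.Sheet

/-! DS1: Birkhoff's theorem with supports (MP_fcb106_co). -/

set_option autoImplicit false

open Finset

namespace Pool.Agent.Helper59.PL

open Pool.Agent.Helper33.DP

section

variable {n : Type*} [Fintype n] [DecidableEq n]

/-- Birkhoff's theorem: the permutations with positive weight lie in the support. -/
theorem birk {D : Matrix n n ℝ} (hD : D ∈ doublyStochastic ℝ n) :
    ∃ θ : Equiv.Perm n → ℝ, (∀ σ, 0 ≤ θ σ) ∧ ∑ σ, θ σ = 1 ∧
      (∀ a b, D a b = ∑ σ, θ σ * if σ a = b then 1 else 0) ∧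
      (∀ σ, θ σ ≠ 0 → ∀ a, 0 < D a (σ a)) ∧
      ∀ f : n → n → ℝ, ∑ a, ∑ b, D a b * f a b = ∑ σ, θ σ * ∑ a, f a (σ a) := by
  obtain ⟨θ, h0, h1, h2⟩ := exists_eq_sum_perm_of_mem_doublyStochastic hD
  have h3 : ∀ a b, D a b = ∑ σ, θ σ * if σ a = b then 1 else 0 := by
    intro a b
    rw [← h2, Matrix.sum_apply]
    refine Finset.sum_congr rfl fun σ _ => ?_
    rw [Matrix.smul_apply, smul_eq_mul, Equiv.Perm.permMatrix, PEquiv.toMatrix_apply]
    simp
  refine ⟨θ, h0, h1, h3, fun σ hσ a => ?_, fun f => ?_⟩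
  · have h4 : 0 < θ σ := lt_of_le_of_ne (h0 σ) (Ne.symm hσ)
    rw [h3]
    refine lt_of_lt_of_le h4 ?_
    have h5 : θ σ = θ σ * if σ a = σ a then 1 else 0 := by simp
    rw [h5]
    exact Finset.single_le_sum (f := fun τ : Equiv.Perm n => θ τ * if τ a = σ a then 1 else 0)
      (fun τ _ => mul_nonneg (h0 τ) (by split_ifs <;> norm_num)) (Finset.mem_univ σ)
  · calc ∑ a, ∑ b, D a b * f a b
        = ∑ a, ∑ b, ∑ σ, (θ σ * if σ a = b then 1 else 0) * f a b := by
          refine Finset.sum_congr rfl fun a _ => Finset.sum_congr rfl fun b _ => ?_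
          rw [h3, Finset.sum_mul]
      _ = ∑ a, ∑ σ, ∑ b, (θ σ * if σ a = b then 1 else 0) * f a b := by
          refine Finset.sum_congr rfl fun a _ => Finset.sum_comm
      _ = ∑ a, ∑ σ, θ σ * f a (σ a) := by
          refine Finset.sum_congr rfl fun a _ => Finset.sum_congr rfl fun σ _ => ?_
          rw [Finset.sum_eq_single (σ a)]
          · simp
          · intro b _ hb
            rw [if_neg (Ne.symm hb)]
            ring
          · intro h
            exact absurd (Finset.mem_univ _) h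
      _ = ∑ σ, ∑ a, θ σ * f a (σ a) := Finset.sum_comm
      _ = ∑ σ, θ σ * ∑ a, f a (σ a) := by
          refine Finset.sum_congr rfl fun σ _ => ?_
          rw [Finset.mul_sum]

end

theorem ds_mem {w : ℕ} {G : Gr w} {D : Fin w → Fin w → ℝ} (h : DS G D) :
    (Matrix.of D) ∈ doublyStochastic ℝ (Fin w) := by
  rw [mem_doublyStochastic_iff_sum]
  exact ⟨fun a b => h.nonneg a b, fun a => h.row a, fun b => h.col b⟩

/-- A bound along all perfect matchings of `G` holds for all doubly stochastic matrices with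
support in `G`. -/
theorem ds_le {w : ℕ} {G : Gr w} {D : Fin w → Fin w → ℝ} (hD : DS G D) {f : Fin w → Fin w → ℝ}
    {β : ℝ} (h : ∀ σ : Equiv.Perm (Fin w), PM G σ → ∑ a, f a (σ a) ≤ β) :
    ∑ a, ∑ b, D a b * f a b ≤ β := by
  obtain ⟨θ, h0, h1, -, h3, h4⟩ := birk (ds_mem hD)
  have h5 := h4 f
  simp only [Matrix.of_apply] at h5 h3
  rw [h5]
  calc ∑ σ, θ σ * ∑ a, f a (σ a) ≤ ∑ σ, θ σ * β := by
        refine Finset.sum_le_sum fun σ _ => ?_
        by_cases hσ : θ σ = 0
        · rw [hσ]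
          simp
        · refine mul_le_mul_of_nonneg_left (h σ fun a => ?_) (h0 σ)
          by_contra hcon
          have h6 := h3 σ hσ a
          rw [hD.supp _ _ hcon] at h6
          exact lt_irrefl _ h6
    _ = β := by rw [← Finset.sum_mul, h1, one_mul]

theorem DS1 : ST_DS1 := by
  intro w G μ D β hB hD
  exact ds_le hD (f := fun a b => (μ a b)⁻¹) hB.le

end Pool.Agent.Helper59.PL
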