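import Pool.Agent.Helper33.DP3.Sheet

/-! Case B, version 3 (MP_fcb106_co). -/

set_option autoImplicit false

open Finset

namespace Pool.Agent.Helper59.PL

open Pool.Agent.Helper33.DP Pool.Agent.Helper33.DP3

theorem card_pos_of_core {w : ℕ} (hw : 1 ≤ w) {G : Gr w} (h : IsCore G) : 1 ≤ G.card := by
  obtain ⟨σ, hσ⟩ := h.ex
  exact Finset.card_pos.2 ⟨_, hσ ⟨0, hw⟩⟩

theorem BB_zero' {w : ℕ} : BB (fun _ : Fin w => (0 : ℝ)) := by
  refine ⟨by simp, fun S => ?_⟩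
  have h1 : (S.card : ℝ) ≤ w := by
    have := Finset.card_le_univ S
    rw [Fintype.card_fin] at this
    exact_mod_cast this
  simp only [Finset.sum_const_zero]
  exact mul_nonneg (Nat.cast_nonneg _) (by linarith)

theorem B3 (hSTR : ST_STR) (hLR : ST_LR) (hBB1 : ST_BB1) (hBB2 : ST_BB2) (hPEX3 : ST_PEX3)
    (hCLM : ST_CLM) (hBGP : ST_BGP) (hBDR : ST_BDR) (hGB3 : ST_GB3) : ST_B3 := by
  intro w G G₁ G₂ μ hw hG hG₁ hG₂ hcomp hgood hc₁ hc₂
  obtain ⟨hμ1, hμB⟩ := hGB3 w G μ hw hG hgood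
  obtain ⟨hμ0, ρ, dR, dC, h0, hsum, hρB, hdR, hdC⟩ := hgood
  obtain ⟨heq, hst⟩ := (hSTR w G G₁ G₂ hG₁ hG₂ hcomp).1.2 hc₁
  have hwR : (1 : ℝ) ≤ w := by exact_mod_cast hw
  have hm2 : (1 : ℝ) ≤ G₂.card := by exact_mod_cast card_pos_of_core hw hG₂
  have hm : (G₂.card : ℝ) + 1 ≤ G.card := by exact_mod_cast hc₂
  set γ : ℝ := gam w G.card with hγ
  have hγG₂ : gam w G₂.card + 3 * w ≤ γ := by
    have : 3 * (w : ℝ) * (G₂.card + 1) ≤ 3 * w * G.card :=
      mul_le_mul_of_nonneg_left hm (by positivity)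
    rw [hγ]
    unfold gam
    linarith
  have hγ₂ : 3 * (w : ℝ) ≤ gam w G₂.card := by
    unfold gam
    nlinarith
  have hγ0 : 0 < γ - 2 * ((w : ℝ) - 1) := by linarith
  have hγ1 : 0 < γ - 2 * ((w : ℝ) - 1) - 1 := by linarith
  -- the column sums
  set s : Fin w → ℝ := fun b => ∑ a, (μ a b : ℝ) with hs
  have hspos : ∀ b, 0 < s b := by
    intro b
    obtain ⟨σ, hσ⟩ := hG.ex
    have h1 : (σ.symm b, b) ∈ G := by
      have := hσ (σ.symm b)
      rwa [Equiv.apply_symm_apply] at this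
    have h2 : (1 : ℝ) ≤ μ (σ.symm b) b := by exact_mod_cast hμ1 _ _ h1
    have h3 : (μ (σ.symm b) b : ℝ) ≤ s b :=
      Finset.single_le_sum (f := fun a => (μ a b : ℝ)) (fun a _ => Nat.cast_nonneg _)
        (Finset.mem_univ _)
    linarith
  have hclm : ∑ e ∈ G₂, (s e.2)⁻¹ ≤ 1 / (γ - 2 * ((w : ℝ) - 1)) :=
    hCLM w G G₁ G₂ (fun a b => (μ a b : ℝ)) _ hG₁ hG₂ heq hst
      (fun a b => Nat.cast_nonneg _) hμB
  have hlt : 1 / (γ - 2 * ((w : ℝ) - 1)) < 1 / (γ - 2 * ((w : ℝ) - 1) - 1) :=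
    one_div_lt_one_div_of_lt hγ1 (by linarith)
  obtain ⟨P, hP, hPB⟩ := hPEX3 w G₂ s _ _ hw hG₂ hspos hclm hlt
  have hPG : ∀ x b, P x b ≠ 0 → (x, b) ∈ G₂ := by
    intro x b h
    by_contra hcon
    exact h (hP.supp x b hcon)
  -- products with `P` vanish outside `G₁`
  have hvan : ∀ (f : Fin w → Fin w → ℝ), (∀ a b, (a, b) ∉ G → f a b = 0) →
      ∀ a x b, ¬ ((a, x) ∈ G₁ ∧ (x, b) ∈ G₂) → f a b * P x b = 0 := by
    intro f hf a x b h
    by_contra hcon
    have h1 : f a b ≠ 0 := left_ne_zero_of_mul hcon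
    have h2 : P x b ≠ 0 := right_ne_zero_of_mul hcon
    have h3 : (a, b) ∈ G := by
      by_contra h4
      exact h1 (hf a b h4)
    exact h ⟨hst a x b h3 (hPG x b h2), hPG x b h2⟩
  have hvan' : ∀ (f : Fin w → Fin w → ℝ), (∀ a b, (a, b) ∉ G → f a b = 0) →
      ∀ a x, (a, x) ∉ G₁ → ∑ b, f a b * P x b = 0 := fun f hf a x h =>
    Finset.sum_eq_zero fun b _ => hvan f hf a x b fun h' => h h'.1
  -- the real routing
  set z : Fin w → Fin w → Fin w → ℝ := fun a x b => (μ a b : ℝ) * P x b with hz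
  have hzs : ∀ a x b, ¬ ((a, x) ∈ G₁ ∧ (x, b) ∈ G₂) → z a x b = 0 :=
    hvan (fun a b => (μ a b : ℝ)) fun a b h => by rw [hμ0 a b h, Nat.cast_zero]
  -- the feedback rounding
  have hround : ∀ a, ∃ y' : Fin w → Fin w → ℕ, (∀ b, ∑ x, y' b x = μ a b) ∧
      (∀ b x, |(y' b x : ℝ) - z a x b| < 1) ∧ (∀ b x, z a x b = 0 → y' b x = 0) ∧
      BB (fun x => ∑ b, P x b * dR a b + ∑ b, ((y' b x : ℝ) - z a x b)) := by
    intro a
    refine hLR w (fun x => ∑ b, P x b * dR a b) (fun b x => z a x b) (fun b => μ a b)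
      (hBB1 w P (dR a) hP.nonneg hP.row hP.col (hdR a))
      (fun b x => mul_nonneg (Nat.cast_nonneg _) (hP.nonneg x b)) fun b => ?_
    simp only [hz]
    rw [← Finset.mul_sum, hP.col b, mul_one]
  choose y' hy1 hy2 hy3 hy4 using hround
  have hR : Route G₁ G₂ μ (fun a x b => y' a b x) := by
    refine ⟨fun a x b h => ?_, fun a b _ => hy1 a b⟩
    by_contra hcon
    exact h (hy3 a b x (hzs a x b hcon))
  have hz'0 : ∀ a x b, ¬ ((a, x) ∈ G₁ ∧ (x, b) ∈ G₂) → y' a b x = 0 := fun a x b h =>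
    hy3 a b x (hzs a x b h)
  refine ⟨fun a x b => y' a b x, hR, ⟨fun a x h => ?_, fun a x => ∑ b, ρ a b * P x b,
    fun a x => ∑ b, P x b * dR a b + ∑ b, ((y' a b x : ℝ) - z a x b),
    fun a x => ∑ b, P x b * dC a b, fun a x h => ⟨?_, ?_, ?_⟩, fun a x => ?_, ?_, fun a => hy4 a,
    fun x => ?_⟩,
    ⟨fun x b h => ?_, fun x b => ((∑ a, y' a b x : ℕ) : ℝ), fun _ _ => 0, fun _ _ => 0,
      fun x b h => ⟨?_, rfl, rfl⟩, fun x b => by simp, ?_, fun x => BB_zero',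
      fun b => BB_zero'⟩⟩
  · exact Finset.sum_eq_zero fun b _ => hz'0 a x b fun h' => h h'.1
  · exact hvan' ρ (fun a b h => (h0 a b h).1) a x h
  · have h1 : ∑ b, P x b * dR a b = 0 := by
      have := hvan' dR (fun a b h => (h0 a b h).2.1) a x h
      rw [← this]
      exact Finset.sum_congr rfl fun b _ => mul_comm _ _
    have h2 : ∑ b, ((y' a b x : ℝ) - z a x b) = 0 := by
      refine Finset.sum_eq_zero fun b _ => ?_
      rw [hz'0 a x b fun h' => h h'.1, hzs a x b fun h' => h h'.1]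
      simp
    simp only [h1, h2, add_zero]
  · have := hvan' dC (fun a b h => (h0 a b h).2.2) a x h
    rw [← this]
    exact Finset.sum_congr rfl fun b _ => mul_comm _ _
  · push_cast
    rw [← Finset.sum_add_distrib, ← Finset.sum_add_distrib, ← Finset.sum_add_distrib]
    refine Finset.sum_congr rfl fun b _ => ?_
    simp only [hz]
    rw [hsum a b]
    ring
  · rw [hc₁]
    exact hBGP w G G₁ G₂ ρ P _ hcomp (fun a b h => (h0 a b h).1) hP hρB
  · exact hBB2 w (fun b => P x b) dC (hP.nonneg x) (hP.row x) hdC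
  · exact Finset.sum_eq_zero fun a _ => hz'0 a x b fun h' => h h'.2
  · have : ∑ a, y' a b x = 0 := Finset.sum_eq_zero fun a _ => hz'0 a x b fun h' => h h'.2
    simp only [this, Nat.cast_zero]
  · have h1 := hBDR w G₂ (fun x b => P x b * s b) (fun x b => ((∑ a, y' a b x : ℕ) : ℝ))
      (1 / (γ - 2 * ((w : ℝ) - 1) - 1)) w hG₂ (by linarith) (by positivity)
      (by rw [mul_one_div, div_lt_one hγ1]; linarith) hPB fun x b _ => ?_
    · refine ⟨h1.pos, fun σ hσ => (h1.le σ hσ).trans ?_⟩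
      have h2 : 1 / (γ - 2 * ((w : ℝ) - 1) - 1) /
          (1 - w * (1 / (γ - 2 * ((w : ℝ) - 1) - 1))) = 1 / (γ - 2 * ((w : ℝ) - 1) - 1 - w) := by
        have h3 : 1 - (w : ℝ) * (1 / (γ - 2 * ((w : ℝ) - 1) - 1)) =
            (γ - 2 * ((w : ℝ) - 1) - 1 - w) / (γ - 2 * ((w : ℝ) - 1) - 1) := by
          field_simp
        rw [h3, div_div, mul_div_cancel₀ _ hγ1.ne']
      rw [h2]
      exact one_div_le_one_div_of_le (by linarith) (by linarith)
    · have h2 : P x b * s b = ∑ a, z a x b := by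
        simp only [hz, hs]
        rw [Finset.mul_sum]
        exact Finset.sum_congr rfl fun a _ => mul_comm _ _
      rw [h2]
      push_cast
      have h3 : ∑ a, (z a x b - (y' a b x : ℝ)) ≤ ∑ _a : Fin w, (1 : ℝ) := by
        refine Finset.sum_le_sum fun a _ => ?_
        have := (abs_lt.1 (hy2 a b x)).1
        linarith
      rw [Finset.sum_sub_distrib] at h3
      simp only [Finset.sum_const, Finset.card_univ, Fintype.card_fin, nsmul_eq_mul,
        mul_one] at h3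
      linarith

end Pool.Agent.Helper59.PL
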