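import Pool.Agent.Helper33.DP.Sheet

/-! RND, RND3: rounding (MP_fcb106_co). -/

set_option autoImplicit false

open Finset

namespace Pool.Agent.Helper59.PL

open Pool.Agent.Helper33.DP

theorem RND : ST_RND := by
  intro X _ _ s z m hz hm
  classical
  set f : X → ℕ := fun x => ⌊z x⌋₊ with hf
  set S : Finset X := s.filter fun x => (f x : ℝ) ≠ z x with hS
  have hfz : ∀ x ∈ s, (f x : ℝ) ≤ z x := fun x hx => Nat.floor_le (hz x hx)
  have hfz' : ∀ x, z x < f x + 1 := fun x => Nat.lt_floor_add_one (z x)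
  have hsum : (∑ x ∈ s, (f x : ℝ)) ≤ m := by
    rw [← hm]
    exact Finset.sum_le_sum hfz
  have hsum' : ∑ x ∈ s, f x ≤ m := by exact_mod_cast hsum
  obtain ⟨r, hr⟩ := Nat.exists_eq_add_of_le hsum'
  have hrS : r ≤ S.card := by
    have h1 : (m : ℝ) - ∑ x ∈ s, (f x : ℝ) ≤ S.card := by
      rw [← hm, ← Finset.sum_sub_distrib]
      have h2 : ∀ x ∈ s, z x - f x ≤ if (f x : ℝ) ≠ z x then (1 : ℝ) else 0 := by
        intro x hx
        by_cases h3 : (f x : ℝ) ≠ z x
        · rw [if_pos h3]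
          have := hfz' x
          linarith
        · rw [if_neg h3]
          push Not at h3
          linarith
      calc ∑ x ∈ s, (z x - f x) ≤ ∑ x ∈ s, (if (f x : ℝ) ≠ z x then (1 : ℝ) else 0) :=
            Finset.sum_le_sum h2
        _ = S.card := by
          rw [← Finset.sum_filter, Finset.sum_const, nsmul_eq_mul, mul_one]
    have h4 : (m : ℝ) = (∑ x ∈ s, (f x : ℝ)) + r := by
      rw [hr]
      push_cast
      ring
    have h5 : (r : ℝ) ≤ S.card := by linarith
    exact_mod_cast h5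
  obtain ⟨T, hTS, hT⟩ := Finset.exists_subset_card_eq hrS
  have hTs : T ⊆ s := hTS.trans (Finset.filter_subset _ _)
  refine ⟨fun x => if x ∈ s then f x + (if x ∈ T then 1 else 0) else 0, fun x hx => if_neg hx,
    ?_, fun x hx => ?_⟩
  · have h1 : ∑ x ∈ s, (if x ∈ s then f x + (if x ∈ T then 1 else 0) else 0) =
        ∑ x ∈ s, (f x + (if x ∈ T then 1 else 0)) :=
      Finset.sum_congr rfl fun x hx => if_pos hx
    rw [h1, Finset.sum_add_distrib, Finset.sum_ite_mem, Finset.inter_eq_right.2 hTs,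
      Finset.sum_const, hT, hr]
    simp
  · simp only [if_pos hx]
    by_cases h : x ∈ T
    · simp only [if_pos h]
      push_cast
      rw [abs_le]
      constructor
      · linarith [hfz' x]
      · linarith [hfz x hx]
    · simp only [if_neg h, add_zero]
      rw [abs_le]
      constructor
      · linarith [hfz' x]
      · linarith [hfz x hx]

theorem mem_comp {w : ℕ} {G₁ G₂ : Gr w} {a b : Fin w} :
    (a, b) ∈ comp G₁ G₂ ↔ ∃ x, (a, x) ∈ G₁ ∧ (x, b) ∈ G₂ := by
  simp [comp]

theorem RND3 : ST_RND3 := by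
  intro w G₁ G₂ μ z hz hsupp hsum
  classical
  have key : ∀ a b : Fin w, ∃ z' : Fin w → ℕ,
      (∀ x, ¬ ((a, x) ∈ G₁ ∧ (x, b) ∈ G₂) → z' x = 0) ∧
      ((a, b) ∈ comp G₁ G₂ → ∑ x, z' x = μ a b) ∧ (∀ x, |(z' x : ℝ) - z a x b| ≤ 1) ∧
      ∑ x, ((z' x : ℝ) - z a x b) = 0 := by
    intro a b
    by_cases hab : (a, b) ∈ comp G₁ G₂
    · set s : Finset (Fin w) := univ.filter fun x => (a, x) ∈ G₁ ∧ (x, b) ∈ G₂ with hs
      have hout : ∀ x, x ∉ s → z a x b = 0 := fun x hx =>
        hsupp a x b fun h => hx (by simp [hs, h])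
      have h1 : ∑ x ∈ s, z a x b = (μ a b : ℝ) := by
        rw [← hsum a b hab]
        exact Finset.sum_subset (Finset.subset_univ s) fun x _ hx => hout x hx
      obtain ⟨z', h2, h3, h4⟩ := RND (Fin w) s (fun x => z a x b) (μ a b)
        (fun x _ => hz a x b) h1
      have h5 : ∑ x, z' x = μ a b := by
        rw [← h3]
        exact (Finset.sum_subset (Finset.subset_univ s) fun x _ hx => h2 x hx).symm
      refine ⟨z', fun x hx => h2 x (by simp [hs, hx]), fun _ => h5, fun x => ?_, ?_⟩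
      · by_cases hx : x ∈ s
        · exact h4 x hx
        · rw [h2 x hx, hout x hx]
          simp
      · rw [Finset.sum_sub_distrib, hsum a b hab, ← h5]
        push_cast
        ring
    · have h0 : ∀ x, z a x b = 0 := fun x => hsupp a x b fun h => hab (mem_comp.2 ⟨x, h⟩)
      refine ⟨fun _ => 0, fun _ _ => rfl, fun h => absurd h hab, fun x => ?_, ?_⟩
      · rw [h0]
        simp
      · simp [h0]
  choose z' h1 h2 h3 h4 using key
  refine ⟨fun a x b => z' a b x, ⟨fun a x b h => ?_, fun a b hab => h2 a b hab⟩,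
    fun a x b => h3 a b x, fun a b => h4 a b⟩
  by_contra hcon
  exact h (h1 a b x hcon)

end Pool.Agent.Helper59.PL
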