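import Pool.Agent.Helper59.PL.Num
import Pool.Agent.Helper59.PL.RND

/-! Case B (MP_fcb106_co). -/

set_option autoImplicit false

open Finset

namespace Pool.Agent.Helper59.PL

open Pool.Agent.Helper33.DP

theorem B (hSTR : ST_STR) (hRND3 : ST_RND3) (hBDR : ST_BDR) (hERS : ST_ERS) (hPEX : ST_PEX)
    (hCLM : ST_CLM) (hBGP : ST_BGP) (hGB : ST_GB) : ST_B := by
  intro w G G₁ G₂ μ hw hG hG₁ hG₂ hcomp hgood hc₁ hc₂
  obtain ⟨hμ1, hμB⟩ := hGB w G μ hw hG hgood
  obtain ⟨hμ0, ρ, hρ0, hρB, hρE⟩ := hgood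
  obtain ⟨heq, hst⟩ := (hSTR w G G₁ G₂ hG₁ hG₂ hcomp).1.2 hc₁
  have hy := yy_pos hw
  have hy8 := yy_le hw
  have hb := bet_pos hw G.card
  set y := yy w with hydef
  set β := bet w G.card with hβ
  have h1y : 0 < 1 - y := by linarith
  have hwR : (1 : ℝ) ≤ w := by exact_mod_cast hw
  -- the column sums
  set s : Fin w → ℝ := fun b => ∑ a, (μ a b : ℝ) with hs
  have hspos : ∀ b, 0 < s b := by
    intro b
    obtain ⟨σ, hσ⟩ := hG.ex
    have h1 : (σ.symm b, b) ∈ G := by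
      have := hσ (σ.symm b)
      rwa [Equiv.apply_symm_apply] at this
    have h2 : (1 : ℝ) ≤ μ (σ.symm b) b := by exact_mod_cast hμ1 _ _ h1
    have h3 : (μ (σ.symm b) b : ℝ) ≤ s b :=
      Finset.single_le_sum (f := fun a => (μ a b : ℝ)) (fun a _ => Nat.cast_nonneg _)
        (Finset.mem_univ _)
    linarith
  have hclm : ∑ e ∈ G₂, (s e.2)⁻¹ ≤ β / (1 - y) :=
    hCLM w G G₁ G₂ (fun a b => (μ a b : ℝ)) (β / (1 - y)) hG₁ hG₂ heq hst
      (fun a b => Nat.cast_nonneg _) hμB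
  have hlt : β / (1 - y) / (1 - yy w) < β / (1 - y) ^ 3 := by
    rw [← hydef, div_div, div_lt_div_iff_of_pos_left hb (by positivity) (by positivity)]
    have h1 : (1 - y) ^ 3 = (1 - y) * (1 - y) * (1 - y) := by ring
    rw [h1]
    have h2 : 0 < (1 - y) * (1 - y) := by positivity
    nlinarith
  obtain ⟨P, hP, hPp, hPB⟩ := hPEX w G₂ s (β / (1 - y)) (β / (1 - y) ^ 3) hw hG₂ hspos hclm hlt
  -- the real routing
  set z : Fin w → Fin w → Fin w → ℝ := fun a x b => (μ a b : ℝ) * P x b with hz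
  have hz0 : ∀ a x b, 0 ≤ z a x b := fun a x b => mul_nonneg (Nat.cast_nonneg _) (hP.nonneg x b)
  have hPG : ∀ x b, P x b ≠ 0 → (x, b) ∈ G₂ := by
    intro x b h
    by_contra hcon
    exact h (hP.supp x b hcon)
  have hzs : ∀ a x b, ¬ ((a, x) ∈ G₁ ∧ (x, b) ∈ G₂) → z a x b = 0 := by
    intro a x b h
    by_contra hcon
    have h1 : (μ a b : ℝ) ≠ 0 := left_ne_zero_of_mul hcon
    have h2 : P x b ≠ 0 := right_ne_zero_of_mul hcon
    have h3 : (a, b) ∈ G := by
      by_contra h4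
      exact h1 (by rw [hμ0 a b h4, Nat.cast_zero])
    exact h ⟨hst a x b h3 (hPG x b h2), hPG x b h2⟩
  have hzsum : ∀ a b, ∑ x, z a x b = (μ a b : ℝ) := by
    intro a b
    simp only [hz]
    rw [← Finset.mul_sum, hP.col b, mul_one]
  obtain ⟨z', hR, hz'1, hz'0⟩ := hRND3 w G₁ G₂ μ z hz0 hzs fun a b _ => hzsum a b
  have hz'0' : ∀ a x b, ¬ ((a, x) ∈ G₁ ∧ (x, b) ∈ G₂) → z' a x b = 0 := by
    intro a x b h
    by_contra hcon
    exact h (hR.supp a x b hcon)
  refine ⟨z', hR, ⟨fun a x h => ?_, fun a x => ∑ b, ρ a b * P x b, fun a x h => ?_, ?_, ?_⟩,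
    ⟨fun x b h => ?_, fun x b => ((∑ a, z' a x b : ℕ) : ℝ), fun x b h => ?_, ?_, ?_⟩⟩
  · exact Finset.sum_eq_zero fun b _ => hz'0' a x b fun h' => h h'.1
  · refine Finset.sum_eq_zero fun b _ => ?_
    by_contra hcon
    have h1 : ρ a b ≠ 0 := left_ne_zero_of_mul hcon
    have h2 : P x b ≠ 0 := right_ne_zero_of_mul hcon
    have h3 : (a, b) ∈ G := by
      by_contra h4
      exact h1 (hρ0 a b h4)
    exact h (hst a x b h3 (hPG x b h2))
  · rw [hc₁]
    exact hBGP w G G₁ G₂ ρ P β hcomp hρ0 hP hρB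
  · have h1 := hERS w G₂ P (fun a b => (μ a b : ℝ) - ρ a b)
      (fun a x b => (z' a x b : ℝ) - z a x b) (pp w) (EE w) (pp_pos hw).le (EE_pp hw) hP hPp hρE
      hz'1 (fun a x b h => ?_) hz'0
    · have h2 : (fun a x => ((∑ b, z' a x b : ℕ) : ℝ) - ∑ b, ρ a b * P x b) =
          fun a x => ∑ b, ((μ a b : ℝ) - ρ a b) * P x b + ∑ b, ((z' a x b : ℝ) - z a x b) := by
        funext a x
        rw [← Finset.sum_add_distrib]
        push_cast
        rw [← Finset.sum_sub_distrib]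
        refine Finset.sum_congr rfl fun b _ => ?_
        simp only [hz]
        ring
      rw [h2]
      exact h1
    · rw [hz'0' a x b fun h' => h h'.2, hzs a x b fun h' => h h'.2]
      simp
  · exact Finset.sum_eq_zero fun a _ => hz'0' a x b fun h' => h h'.2
  · have : ∑ a, z' a x b = 0 := Finset.sum_eq_zero fun a _ => hz'0' a x b fun h' => h h'.2
    simp only [this, Nat.cast_zero]
  · refine Bdd.mono (hBDR w G₂ (fun x b => P x b * s b) _ (β / (1 - y) ^ 3) w hG₂
      (by linarith) (by positivity) ?_ hPB fun x b _ => ?_) (tot_loss hw hc₂ (card_le G))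
    · exact lt_of_le_of_lt (rnd_loss hw G.card) (by linarith)
    · have h1 : P x b * s b = ∑ a, z a x b := by
        simp only [hz, hs]
        rw [Finset.mul_sum]
        exact Finset.sum_congr rfl fun a _ => mul_comm _ _
      rw [h1]
      push_cast
      have h2 : ∑ a, (z a x b - (z' a x b : ℝ)) ≤ ∑ _a : Fin w, (1 : ℝ) := by
        refine Finset.sum_le_sum fun a _ => ?_
        have := (abs_le.1 (hz'1 a x b)).1
        linarith
      rw [Finset.sum_sub_distrib] at h2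
      simp only [Finset.sum_const, Finset.card_univ, Fintype.card_fin, nsmul_eq_mul,
        mul_one] at h2
      linarith
  · exact errLe_zero (EE_pos hw).le fun x b => by simp
end Pool.Agent.Helper59.PL
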