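import Pool.Agent.Helper33.DP.Sheet

/-! Numerical estimates for the parameters (MP_fcb106_co). -/

set_option autoImplicit false

open Finset

namespace Pool.Agent.Helper59.PL

open Pool.Agent.Helper33.DP

theorem be0_pos {w : ℕ} (hw : 1 ≤ w) : 0 < be0 w := by
  have h : (0 : ℝ) < w := by exact_mod_cast hw
  unfold be0
  positivity

theorem yy_pos {w : ℕ} (hw : 1 ≤ w) : 0 < yy w := by
  have h : (0 : ℝ) < w := by exact_mod_cast hw
  unfold yy
  positivity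

theorem yy_le {w : ℕ} (hw : 1 ≤ w) : yy w ≤ 1 / 8 := by
  have h : (1 : ℝ) ≤ w := by exact_mod_cast hw
  unfold yy
  refine one_div_le_one_div_of_le (by norm_num) ?_
  nlinarith

theorem eps_eq {w : ℕ} (hw : 1 ≤ w) : 1 / (w : ℝ) ^ 2 = 8 * yy w := by
  have h : (0 : ℝ) < w := by exact_mod_cast hw
  unfold yy
  field_simp

theorem bet_pos {w : ℕ} (hw : 1 ≤ w) (m : ℕ) : 0 < bet w m := by
  unfold bet
  have := be0_pos hw
  have h : (0 : ℝ) < w := by exact_mod_cast hw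
  positivity

theorem bet_le {w : ℕ} (hw : 1 ≤ w) (m : ℕ) : bet w m ≤ 3 * be0 w := by
  have hb := be0_pos hw
  have h : (0 : ℝ) < w := by exact_mod_cast hw
  unfold bet
  have h1 : (1 + 1 / (w : ℝ) ^ 2) ^ (w ^ 2 - m) ≤ 3 := by
    calc (1 + 1 / (w : ℝ) ^ 2) ^ (w ^ 2 - m) ≤ (1 + 1 / (w : ℝ) ^ 2) ^ (w ^ 2) :=
          pow_le_pow_right₀ (by have : (0 : ℝ) < 1 / (w : ℝ) ^ 2 := by positivity
                                linarith) (Nat.sub_le _ _)
      _ ≤ (Real.exp (1 / (w : ℝ) ^ 2)) ^ (w ^ 2) := by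
          refine pow_le_pow_left₀ (by positivity) ?_ _
          have := Real.add_one_le_exp (1 / (w : ℝ) ^ 2)
          linarith
      _ = Real.exp 1 := by
          rw [← Real.exp_nat_mul]
          congr 1
          push_cast
          field_simp
      _ ≤ 3 := by
          have := Real.exp_one_lt_d9
          linarith
  calc be0 w * (1 + 1 / (w : ℝ) ^ 2) ^ (w ^ 2 - m) ≤ be0 w * 3 :=
        mul_le_mul_of_nonneg_left h1 hb.le
    _ = 3 * be0 w := by ring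

theorem bet_step {w m m' : ℕ} (hw : 1 ≤ w) (h : m' < m) (hm : m ≤ w ^ 2) :
    bet w m * (1 + 8 * yy w) ≤ bet w m' := by
  have hb := be0_pos hw
  have hw' : (0 : ℝ) < w := by exact_mod_cast hw
  rw [← eps_eq hw]
  unfold bet
  rw [mul_assoc, ← pow_succ]
  refine mul_le_mul_of_nonneg_left ?_ hb.le
  refine pow_le_pow_right₀ ?_ (by omega)
  have : (0 : ℝ) < 1 / (w : ℝ) ^ 2 := by positivity
  linarith

/-- the loss of the rounding -/
theorem rnd_loss {w : ℕ} (hw : 1 ≤ w) (m : ℕ) :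
    (w : ℝ) * (bet w m / (1 - yy w) ^ 3) ≤ yy w := by
  have h1 := bet_le hw m
  have h2 := yy_le hw
  have h0 := yy_pos hw
  have hw1 : (1 : ℝ) ≤ w := by exact_mod_cast hw
  have hw0 : (0 : ℝ) < w := by linarith
  have h3 : (343 : ℝ) / 512 ≤ (1 - yy w) ^ 3 := by
    have : (7 / 8 : ℝ) ^ 3 ≤ (1 - yy w) ^ 3 := pow_le_pow_left₀ (by norm_num) (by linarith) 3
    norm_num at this ⊢
    linarith
  have h4 : 0 < (1 - yy w) ^ 3 := by linarith [h3]
  rw [← mul_div_assoc, div_le_iff₀ h4]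
  have h5 : (w : ℝ) * bet w m ≤ w * (3 * be0 w) := mul_le_mul_of_nonneg_left h1 hw0.le
  have h6 : (w : ℝ) * (3 * be0 w) ≤ yy w * (343 / 512) := by
    unfold be0 yy
    have h7 : (w : ℝ) * (3 * (1 / (8192 * (w : ℝ) ^ 11))) = 3 / 8192 / (w : ℝ) ^ 10 := by
      field_simp
    have h8 : 1 / (8 * (w : ℝ) ^ 2) * (343 / 512) = (343 / 4096) / (w : ℝ) ^ 2 := by
      field_simp
      norm_num
    rw [h7, h8]
    have h9 : (w : ℝ) ^ 2 ≤ (w : ℝ) ^ 10 := pow_le_pow_right₀ hw1 (by norm_num)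
    calc (3 : ℝ) / 8192 / (w : ℝ) ^ 10 ≤ 3 / 8192 / (w : ℝ) ^ 2 :=
          div_le_div_of_nonneg_left (by norm_num) (by positivity) h9
      _ ≤ (343 / 4096) / (w : ℝ) ^ 2 := by
          refine div_le_div_of_nonneg_right (by norm_num) (by positivity)
  calc (w : ℝ) * bet w m ≤ w * (3 * be0 w) := h5
    _ ≤ yy w * (343 / 512) := h6
    _ ≤ yy w * (1 - yy w) ^ 3 := mul_le_mul_of_nonneg_left h3 h0.le

/-- all losses together -/
theorem tot_loss {w m m' : ℕ} (hw : 1 ≤ w) (h : m' < m) (hm : m ≤ w ^ 2) :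
    bet w m / (1 - yy w) ^ 3 / (1 - w * (bet w m / (1 - yy w) ^ 3)) ≤ bet w m' := by
  refine le_trans ?_ (bet_step hw h hm)
  have h1 := rnd_loss hw m
  have h2 := yy_le hw
  have h0 := yy_pos hw
  have hb := bet_pos hw m
  set y := yy w with hy
  set r : ℝ := w * (bet w m / (1 - y) ^ 3) with hr
  have h3 : 0 < 1 - r := by linarith
  have h4 : 0 < (1 - y) ^ 3 := pow_pos (by linarith) 3
  rw [div_div, div_le_iff₀ (mul_pos h4 h3), mul_assoc]
  have h5 : 1 - 3 * y ≤ (1 - y) ^ 3 := by nlinarith [sq_nonneg y]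
  have h6 : 1 ≤ (1 + 8 * y) * ((1 - y) ^ 3 * (1 - r)) := by
    have h7 : (1 - 3 * y) * (1 - y) ≤ (1 - y) ^ 3 * (1 - r) :=
      mul_le_mul h5 (by linarith) (by linarith) h4.le
    have h8 : (1 + 8 * y) * ((1 - 3 * y) * (1 - y)) ≤ (1 + 8 * y) * ((1 - y) ^ 3 * (1 - r)) :=
      mul_le_mul_of_nonneg_left h7 (by linarith)
    have h9 : 1 ≤ (1 + 8 * y) * ((1 - 3 * y) * (1 - y)) := by nlinarith
    linarith
  calc bet w m = bet w m * 1 := (mul_one _).symm
    _ ≤ bet w m * ((1 + 8 * y) * ((1 - y) ^ 3 * (1 - r))) := mul_le_mul_of_nonneg_left h6 hb.le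

theorem card_le {w : ℕ} (G : Gr w) : G.card ≤ w ^ 2 := by
  calc G.card ≤ (univ : Gr w).card := Finset.card_le_card (Finset.subset_univ G)
    _ = w ^ 2 := by
      rw [Finset.card_univ, Fintype.card_prod, Fintype.card_fin]
      ring

theorem EE_pp {w : ℕ} (hw : 1 ≤ w) : 1 ≤ EE w * pp w ^ 2 := by
  have hw0 : (0 : ℝ) < w := by exact_mod_cast hw
  unfold EE pp
  have : 64 * (w : ℝ) ^ 8 * (1 / (8 * (w : ℝ) ^ 4)) ^ 2 = 1 := by
    field_simp
    norm_num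
  rw [this]

theorem pp_pos {w : ℕ} (hw : 1 ≤ w) : 0 < pp w := by
  have hw0 : (0 : ℝ) < w := by exact_mod_cast hw
  unfold pp
  positivity

theorem EE_pos {w : ℕ} (hw : 1 ≤ w) : 0 < EE w := by
  have hw0 : (0 : ℝ) < w := by exact_mod_cast hw
  unfold EE
  positivity

theorem Bdd.mono {w : ℕ} {G : Gr w} {μ : Fin w → Fin w → ℝ} {β β' : ℝ} (h : Bdd G μ β)
    (hβ : β ≤ β') : Bdd G μ β' := ⟨h.pos, fun σ hσ => (h.le σ hσ).trans hβ⟩

theorem nrm_nonneg {w : ℕ} (v : Fin w → ℝ) : 0 ≤ nrm v :=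
  Finset.sum_nonneg fun _ _ => abs_nonneg _

theorem Phi_nonneg {w : ℕ} (v : Fin w → ℝ) : 0 ≤ Phi v :=
  Finset.sum_nonneg fun _ _ => Finset.sum_nonneg fun _ _ => abs_nonneg _

theorem errLe_zero {w : ℕ} {E : ℝ} (hE : 0 ≤ E) {δ : Fin w → Fin w → ℝ} (h : ∀ a b, δ a b = 0) :
    ErrLe δ E := by
  intro q v
  have h1 : ∑ a, ∑ b, q a * δ a b * v b = 0 :=
    Finset.sum_eq_zero fun a _ => Finset.sum_eq_zero fun b _ => by rw [h]; ring
  rw [h1, abs_zero]
  have := nrm_nonneg q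
  have := nrm_nonneg v
  have := Phi_nonneg q
  have := Phi_nonneg v
  positivity

end Pool.Agent.Helper59.PL
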